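import Pool.Agent.W728.PK.Stms

/-!
# Project PK, part AN: analyticity of `G`, and `E` is closed
-/

set_option autoImplicit false

namespace Pool.Agent.W924.PK

open Complex Metric Set Filter Topology MeasureTheory
open scoped Real ComplexConjugate
open Pool.Agent.W728.PK

theorem t_AN (h1 : PhiBound_stmt) (h4 : PhiAn_stmt) : AN_stmt := by
  intro α h0 hα ι p d hF M
  have hsum : ∀ r : ℝ, r < 1 → DifferentiableOn ℂ
      (fun z => ∑' i, Phi α (d i) (1 - z * conj (p i))) (ball (0 : ℂ) r) := by
    intro r hr
    have hu : Summable (fun i => d i ^ (1 - α) / (1 - r)) := hF.summ.div_const _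
    have hne : ∀ i, ∀ z ∈ ball (0 : ℂ) r, z ≠ p i := by
      intro i z hz h
      rw [mem_ball_zero_iff, h, hF.norm_one i] at hz
      linarith
    refine differentiableOn_tsum_of_summable_norm hu ?_ isOpen_ball ?_
    · intro i z hz
      have hz' : ‖z‖ ≤ 1 := by
        rw [mem_ball_zero_iff] at hz
        linarith
      have h5 := h4 α (d i) h0 hα (hF.d_pos i) (1 - z * conj (p i)) (w_ne (hF.norm_one i) (hne i z hz))
        (re_w (hF.norm_one i) hz')
      have h6 : DifferentiableAt ℂ (fun z : ℂ => 1 - z * conj (p i)) z := by fun_prop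
      exact (DifferentiableAt.comp z h5 h6).differentiableWithinAt
    · intro i z hz
      have hz2 := mem_ball_zero_iff.1 hz
      have hz' : ‖z‖ ≤ 1 := by linarith
      have h5 := (h1 α (d i) h0 hα (hF.d_pos i) (1 - z * conj (p i))
        (w_ne (hF.norm_one i) (hne i z hz)) (re_w (hF.norm_one i) hz')).1
      refine h5.trans ?_
      rw [norm_w (hF.norm_one i)]
      have h6 : 1 - r ≤ ‖z - p i‖ := by
        have := norm_sub_norm_le (p i) z
        rw [hF.norm_one i, norm_sub_rev] at this
        linarith
      have h7 : 0 ≤ d i ^ (1 - α) := Real.rpow_nonneg (hF.d_pos i).le _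
      exact div_le_div_of_nonneg_left h7 (by linarith) h6
  intro z hz
  have hz2 := mem_ball_zero_iff.1 hz
  obtain ⟨r, hr1, hr2⟩ := exists_between hz2
  have h5 := (hsum r hr2).differentiableAt (isOpen_ball.mem_nhds (mem_ball_zero_iff.2 hr1))
  have h6 : DifferentiableAt ℂ (fun z : ℂ => (M : ℂ) / (1 - z)) z := by
    refine (differentiableAt_const _).div ((differentiableAt_const _).sub differentiableAt_id) ?_
    intro h
    have : z = 1 := (sub_eq_zero.1 h).symm
    rw [this] at hz2
    simp at hz2
  exact (h6.add h5).differentiableWithinAt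

theorem t_CL : CL_stmt := by
  intro α h0 hα ι p d hF
  obtain ⟨C, hC, hrho⟩ := hF.rho
  have h1 : Tendsto (fun i => d i ^ (1 - α)) cofinite (𝓝 0) := hF.summ.tendsto_cofinite_zero
  have hpos : 0 < α / (1 - α) := div_pos h0 (by linarith)
  have h2 : Tendsto (fun i => (d i ^ (1 - α)) ^ (α / (1 - α))) cofinite (𝓝 0) := by
    have h3 := h1.rpow_const (p := α / (1 - α)) (Or.inr hpos.le)
    rwa [Real.zero_rpow hpos.ne'] at h3
  have h3 : Tendsto (fun i => C * d i ^ α) cofinite (𝓝 0) := by
    have h4 : (fun i => (d i ^ (1 - α)) ^ (α / (1 - α))) = fun i => d i ^ α := by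
      funext i
      rw [← Real.rpow_mul (hF.d_pos i).le]
      congr 1
      have : (1 - α) ≠ 0 := by linarith
      field_simp
    rw [h4] at h2
    simpa using h2.const_mul C
  have h4 : Tendsto p cofinite (𝓝 1) := by
    rw [tendsto_iff_norm_sub_tendsto_zero]
    refine squeeze_zero (fun i => norm_nonneg _) (fun i => ?_) h3
    rw [norm_sub_rev]
    exact (hrho i).1
  exact h4.isCompact_insert_range_of_cofinite.isClosed

end Pool.Agent.W924.PK
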